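import Pool.Agent.Q211.SG.Main

/-!
# MP_3c9c51_gt: a sequentially pseudocompact group which is not selectively sequentially
pseudocompact, in ZFC

`Q211.SG.SeqPC` and `Q211.SG.SelSeqPC` are the two notions of the problem.
-/

namespace Pool.Agent.Results.MP_3c9c51_gt.BooleanGroupZFC

open Set Filter Topology

/-- There is (in ZFC) a Hausdorff Boolean topological group which is sequentially pseudocompact
and not selectively sequentially pseudocompact. It has no nontrivial convergent sequences, and it
is a subgroup of a power of the two-element group which projects onto every countable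
subproduct (in particular it is pseudocompact). -/
theorem result : ∃ (ι : Type) (G : AddSubgroup (ι → ZMod 2)),
    Q211.SG.SeqPC G ∧ ¬ Q211.SG.SelSeqPC G ∧
    (∀ x : ℕ → G, Function.Injective x → ∀ a : G, ¬ Tendsto x atTop (𝓝 a)) ∧
    (∀ A : Set ι, A.Countable → ∀ g : ι → ZMod 2, ∃ z : G, ∀ i ∈ A, (z : ι → ZMod 2) i = g i) ∧
    (IsTopologicalAddGroup G ∧ T35Space G ∧ ∀ x : G, x + x = 0) := by
  refine ⟨Q211.SG.I, Q211.SG.G, Q211.SG.seqPC, Q211.SG.not_selSeqPC,
    fun x hx a => Q211.SG.noconv hx a, fun A hA g => Q211.SG.dens A hA g,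
    inferInstance, inferInstance, fun x => ?_⟩
  apply Subtype.ext
  funext i
  exact CharTwo.add_self_eq_zero _

end Pool.Agent.Results.MP_3c9c51_gt.BooleanGroupZFC
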